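import Pool.Agent.X317.BNLoci

/-!
# MP_54820f_ag, Q1: the non-containment statement is false

A smooth projective curve over `ℂ` is given by its function field, see
`Pool/Agent/Helper395/CS/Defs.lean`; the genus is `dim H¹(𝒪)` (`Pool/Agent/Helper395/BC/Defs.lean`). The
loci `M^r_{g,d}`, their containments and `ρ` are defined in `Pool/Agent/X317/BNLoci.lean`.

Let `L` be a `g^r_d` on a curve of genus `g > (d - 1) (d - 2) / 2`. A count of the sections of the powers
of `L` shows that `L` is not very ample, so there are two points `p, q` with `h⁰(L(-p-q)) ≥ h⁰(L) - 1`.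
Iterating, the curve has a net `g^2_{d-2r+4}`, and `d - 2 r + 4` is below the threshold of the question.
This happens for all `r ≥ 3` and `d ≥ 2 r`, so for every value `d - 2 r` of the Clifford index, and for
all `g > (d - 1) (d - 2) / 2`; all these loci `M^r_{g,d}` are nonempty.
-/

set_option autoImplicit false

namespace Pool.Agent.Results.MP_54820f_ag.SmallDegreeNets

open Pool.Agent.X317

/-- The statement of Q1. -/
def Question : Prop :=
  ∃ g₀ : ℕ, ∀ g : ℕ, g₀ ≤ g → ∀ r d e : ℤ, 3 ≤ r → d ≤ g - 1 → e ≤ g - 1 → rho g r d < 0 →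
    rho g 2 e < 0 → e < d - 2 * r + 2 + (r + 3) / 2 → ¬ LocusSubset g r d 2 e

theorem result :
    (∀ (g : ℕ) (r d e : ℤ), 3 ≤ r → 2 * r ≤ d → (d - 1) * (d - 2) < 2 * g →
      d - 2 * r + 4 ≤ e → e < d - 2 * r + 2 + (r + 3) / 2 →
      d ≤ g - 1 ∧ e ≤ g - 1 ∧ rho g r d < 0 ∧ rho g 2 e < 0 ∧ LocusNonempty g r d ∧
        LocusNonempty g 2 e ∧ LocusSubset g r d 2 e) ∧
    ¬ Question := by
  have key : ∀ (g : ℕ) (r d e : ℤ), 3 ≤ r → 2 * r ≤ d → (d - 1) * (d - 2) < 2 * g →
      d - 2 * r + 4 ≤ e → e < d - 2 * r + 2 + (r + 3) / 2 →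
      d ≤ g - 1 ∧ e ≤ g - 1 ∧ rho g r d < 0 ∧ rho g 2 e < 0 ∧ LocusNonempty g r d ∧
        LocusNonempty g 2 e ∧ LocusSubset g r d 2 e := by
    intro g r d e hr hrd hg h1 h2
    have hed : e ≤ d := by omega
    have hdg : d ≤ (g : ℤ) - 1 := le_g (by omega) hg
    have hge : (e - 1) * (e - 2) < 2 * (g : ℤ) := (mul_mono (by omega) hed).trans_lt hg
    have hg7 : 7 ≤ g := by omega
    exact ⟨hdg, by omega, rho_neg (by omega) hrd hg, rho_neg (by omega) (by omega) hge,
      locusNonempty (by omega) hrd hg7, locusNonempty (by omega) (by omega) hg7,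
      locusSubset (by omega) (by omega) hrd hg (by omega) (by omega)⟩
  refine ⟨key, ?_⟩
  rintro ⟨g₀, h⟩
  obtain ⟨h1, h2, h3, h4, -, -, h5⟩ := key (max g₀ 22) 3 8 6 (by norm_num) (by norm_num)
    (by push_cast; omega) (by norm_num) (by norm_num)
  exact h (max g₀ 22) (le_max_left _ _) 3 8 6 (by norm_num) h1 h2 h3 h4 (by norm_num) h5

end Pool.Agent.Results.MP_54820f_ag.SmallDegreeNets
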